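import Mathlib
import Pool.Agent.Results.MP_9210c2_an.DensityComparison
import Pool.Agent.W786.MinMax

set_option autoImplicit false
open MeasureTheory Set
open Pool.Agent.Results.MP_9210c2_an.DensityComparison

namespace Pool.Agent.Results.MP_9210c2_an.WeakTypeDuality

/-- The set where the centred maximal function `sup_{r > 0} μ(x + r K) / |x + r K|` of the
measure `μ` exceeds `lam`. -/
def maxSet {n : ℕ} (K : Set (Rn n)) (μ : Measure (Rn n)) (lam : ℝ) : Set (Rn n) :=
  {x | ∃ r : ℝ, 0 < r ∧ ENNReal.ofReal lam * volume (copy K x r) < μ (copy K x r)}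

/-- The best constant `W(K)` in the weak type (1,1) inequality
`lam * |{x : sup_{r > 0} μ(x + r K) / |x + r K| > lam}| ≤ W(K) * μ(R^n)` for all finite Borel
measures `μ` on `R^n` and all `lam > 0`. -/
noncomputable def weakConst {n : ℕ} (K : Set (Rn n)) : ENNReal :=
  sInf {C : ENNReal | ∀ (μ : Measure (Rn n)) (lam : ℝ), IsFiniteMeasure μ → 0 < lam →
    ENNReal.ofReal lam * volume (maxSet K μ lam) ≤ C * μ univ}

lemma weak_ineq {n : ℕ} (K : Set (Rn n)) (μ : Measure (Rn n)) (lam : ℝ)
    (hμ : IsFiniteMeasure μ) (hl : 0 < lam) :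
    ENNReal.ofReal lam * volume (maxSet K μ lam) ≤ weakConst K * μ univ := by
  unfold weakConst
  rcases eq_or_ne (μ univ) 0 with h0 | h0
  · have hμ0 : μ = 0 := Measure.measure_univ_eq_zero.1 h0
    subst hμ0
    have : maxSet K (0 : Measure (Rn n)) lam = ∅ := by
      ext x
      simp [maxSet]
    rw [this]
    simp
  · have hne : ({C : ENNReal | ∀ (μ : Measure (Rn n)) (lam : ℝ), IsFiniteMeasure μ → 0 < lam →
        ENNReal.ofReal lam * volume (maxSet K μ lam) ≤ C * μ univ}).Nonempty := by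
      refine ⟨⊤, ?_⟩
      intro ν lam' hν hl'
      rcases eq_or_ne (ν univ) 0 with h1 | h1
      · have hν0 : ν = 0 := Measure.measure_univ_eq_zero.1 h1
        subst hν0
        have : maxSet K (0 : Measure (Rn n)) lam' = ∅ := by
          ext x
          simp [maxSet]
        rw [this]
        simp
      · rw [ENNReal.top_mul h1]
        exact le_top
    rw [← ENNReal.div_le_iff h0 (measure_ne_top _ _)]
    refine le_sInf ?_
    intro C hC
    rw [ENNReal.div_le_iff h0 (measure_ne_top _ _)]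
    exact hC μ lam hμ hl

lemma copy_mono {n : ℕ} {K : Set (Rn n)} (h : IsSymBody K) {x y : Rn n} {r r' : ℝ} (hr : 0 < r)
    (hr' : 0 < r') (hxy : r + gauge K (x - y) ≤ r') : copy K x r ⊆ copy K y r' := by
  intro z hz
  rw [h.mem_copy hr] at hz
  rw [h.mem_copy hr']
  have := h.gauge_tri z x y
  linarith

lemma maxSet_open {n : ℕ} {K : Set (Rn n)} (h : IsSymBody K) (μ : Measure (Rn n)) {lam : ℝ}
    (hl : 0 < lam) : IsOpen (maxSet K μ lam) := by
  rw [isOpen_iff_mem_nhds]
  rintro x ⟨r, hr, hx⟩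
  -- a slightly larger radius
  have hcont : Filter.Tendsto (fun s : ℝ => ENNReal.ofReal lam * (ENNReal.ofReal (s ^ n) *
      volume K)) (nhdsWithin r (Set.Ioi r)) (nhds (ENNReal.ofReal lam * (ENNReal.ofReal (r ^ n) *
      volume K))) := by
    have h1 : Filter.Tendsto (fun s : ℝ => ENNReal.ofReal (s ^ n)) (nhdsWithin r (Set.Ioi r))
        (nhds (ENNReal.ofReal (r ^ n))) :=
      (ENNReal.continuous_ofReal.tendsto _).comp
        (((continuous_pow n).tendsto r).mono_left nhdsWithin_le_nhds)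
    exact ENNReal.Tendsto.const_mul (ENNReal.Tendsto.mul_const h1 (Or.inr h.vol_lt_top.ne))
      (Or.inr ENNReal.ofReal_ne_top)
  rw [h.vol_copy x hr.le] at hx
  have hev := (hcont.eventually (Iio_mem_nhds hx)).and self_mem_nhdsWithin
  obtain ⟨r', hr'1, hr'2⟩ := hev.exists
  have hr'2' : r < r' := hr'2
  have hr'0 : 0 < r' := hr.trans hr'2'
  have hU : {y : Rn n | gauge K (x - y) < r' - r} ∈ nhds x := by
    apply IsOpen.mem_nhds
    · exact isOpen_lt (h.gauge_cont.comp (continuous_const.sub continuous_id)) continuous_const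
    · simp only [Set.mem_ofPred_eq, sub_self, gauge_zero]
      linarith
  refine Filter.mem_of_superset hU ?_
  intro y hy
  simp only [Set.mem_ofPred_eq] at hy
  refine ⟨r', hr'0, ?_⟩
  rw [h.vol_copy y hr'0.le]
  refine lt_of_lt_of_le hr'1 (measure_mono (copy_mono h hr hr'0 (by linarith)))

/-- The easy half: `c |E| ≤ μ(R^n) / lam` for compact `E` in the maximal set. -/
lemma admissible_weak {n : ℕ} {K : Set (Rn n)} (h : IsSymBody K) {c : ℝ}
    (hc : Admissible K c) (μ : Measure (Rn n)) (lam : ℝ)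
    (hl : 0 < lam) :
    ENNReal.ofReal c * (ENNReal.ofReal lam * volume (maxSet K μ lam)) ≤ μ univ := by
  rw [(maxSet_open h μ hl).measure_eq_iSup_isCompact]
  simp only [ENNReal.mul_iSup]
  refine iSup_le fun E => iSup_le fun hE => iSup_le fun hEc => ?_
  classical
  set d : Rn n → ℝ := fun x => if hx : ∃ r : ℝ, 0 < r ∧
    ENNReal.ofReal lam * volume (copy K x r) < μ (copy K x r) then hx.choose else 1 with hd
  have hd0 : ∀ x ∈ E, 0 < d x ∧
      ENNReal.ofReal lam * volume (copy K x (d x)) < μ (copy K x (d x)) := by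
    intro x hx
    have hx' : ∃ r : ℝ, 0 < r ∧
      ENNReal.ofReal lam * volume (copy K x r) < μ (copy K x r) := hE hx
    simp only [hd, dif_pos hx']
    exact hx'.choose_spec
  obtain ⟨S, hSE, hSc, hSd, hS⟩ := hc E d hEc fun x hx => (hd0 x hx).1
  have h1 : μ (⋃ x ∈ S, copy K x (d x)) = ∑' x : S, μ (copy K x (d x)) :=
    measure_biUnion hSc hSd fun x hx => (h.copy_open x (hd0 x (hSE hx)).1).measurableSet
  calc ENNReal.ofReal c * (ENNReal.ofReal lam * volume E)
      = ENNReal.ofReal lam * (ENNReal.ofReal c * volume E) := by ring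
    _ ≤ ENNReal.ofReal lam * ∑' x : S, volume (copy K x (d x)) := by gcongr
    _ = ∑' x : S, ENNReal.ofReal lam * volume (copy K x (d x)) := ENNReal.tsum_mul_left.symm
    _ ≤ ∑' x : S, μ (copy K x (d x)) :=
        ENNReal.tsum_le_tsum fun x => (hd0 x (hSE x.2)).2.le
    _ = μ (⋃ x ∈ S, copy K x (d x)) := h1.symm
    _ ≤ μ univ := measure_mono (Set.subset_univ _)

lemma weakConst_le {n : ℕ} {K : Set (Rn n)} (h : IsSymBody K) {c : ℝ} (hc0 : 0 < c)
    (hc : Admissible K c) : weakConst K ≤ (ENNReal.ofReal c)⁻¹ := by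
  refine sInf_le ?_
  intro μ lam hμ hl
  have := admissible_weak h hc μ lam hl
  rw [mul_comm (ENNReal.ofReal c)⁻¹, ← div_eq_mul_inv,
    ENNReal.le_div_iff_mul_le (Or.inl (ENNReal.ofReal_pos.2 hc0).ne')
      (Or.inl ENNReal.ofReal_ne_top), mul_comm]
  exact this


lemma covConst_pos {n : ℕ} (hn : 1 ≤ n) {K : Set (Rn n)} (h : IsSymBody K) :
    0 < covConst K ∧ ∃ c : ℝ, 0 < c ∧ Admissible K c := by
  obtain ⟨R, hR⟩ := h.bounded.exists_norm_le
  have hR0 : 0 ≤ R := (norm_nonneg _).trans (hR 0 h.zero_mem)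
  have hP : IsPeriodicPacking K (2 * R + 1) {0} := by
    refine ⟨by linarith, ?_⟩
    intro p hp q hq z hz
    rw [Finset.mem_singleton] at hp hq
    subst hp hq
    have hz0 : z ≠ 0 := by
      rcases hz with hz | hz
      · exact absurd rfl hz
      · exact hz
    rw [Set.disjoint_left]
    rintro w ⟨k, hk, rfl⟩ ⟨k', hk', he⟩
    apply hz0
    funext i
    have he' := congrFun he i
    simp only [Pi.add_apply, Pi.smul_apply, smul_eq_mul, one_mul, Pi.zero_apply, zero_add] at he'
    have h1 : |k i| ≤ R := by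
      have := norm_le_pi_norm k i
      rw [Real.norm_eq_abs] at this
      exact this.trans (hR k hk)
    have h2 : |k' i| ≤ R := by
      have := norm_le_pi_norm k' i
      rw [Real.norm_eq_abs] at this
      exact this.trans (hR k' hk')
    rw [abs_le] at h1 h2
    have hpos : (0 : ℝ) < 2 * R + 1 := by linarith
    have h3 : (z i : ℝ) < 1 := by
      by_contra hc
      push Not at hc
      nlinarith
    have h4 : (-1 : ℝ) < z i := by
      by_contra hc
      push Not at hc
      nlinarith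
    have h5 : z i < 1 := by exact_mod_cast h3
    have h6 : -1 < z i := by exact_mod_cast h4
    simp only [Pi.zero_apply]
    omega
  have h1 := lower hn h hP
  have hV : 0 < (volume K).toReal := ENNReal.toReal_pos h.vol_pos.ne' h.vol_lt_top.ne
  have hM0 : (0 : ℝ) < M n := by exact_mod_cast Nat.succ_pos _
  have hpos : (0 : ℝ) < 2 * R + 1 := by linarith
  have h2 : 0 < ((({0} : Finset (Rn n)).card : ℝ) * (volume K).toReal / (2 * R + 1) ^ n) /
      (6 * (M n : ℝ)) := by
    rw [Finset.card_singleton]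
    positivity
  exact ⟨h2.trans_le (le_csSup (covConst_bddAbove h) ⟨h2.le, h1⟩), _, h2, h1⟩

lemma weakConst_ne_top {n : ℕ} (hn : 1 ≤ n) {K : Set (Rn n)} (h : IsSymBody K) :
    weakConst K ≠ ⊤ := by
  obtain ⟨-, c, hc0, hc⟩ := covConst_pos hn h
  refine ne_top_of_le_ne_top ?_ (weakConst_le h hc0 hc)
  exact ENNReal.inv_ne_top.2 (ENNReal.ofReal_pos.2 hc0).ne'

lemma weakConst_pos {n : ℕ} (hn : 1 ≤ n) {K : Set (Rn n)} (h : IsSymBody K) :
    0 < weakConst K := by
  have h1 := weak_ineq K (Measure.dirac (0 : Rn n)) 1 inferInstance one_pos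
  rw [measure_univ, mul_one, ENNReal.ofReal_one, one_mul] at h1
  refine lt_of_lt_of_le ?_ h1
  refine (maxSet_open h _ one_pos).measure_pos volume ⟨0, ?_⟩
  have hV : 0 < (volume K).toReal := ENNReal.toReal_pos h.vol_pos.ne' h.vol_lt_top.ne
  set r : ℝ := min 1 (1 / (2 * (volume K).toReal)) with hr
  have hr0 : 0 < r := by
    rw [hr]
    positivity
  refine ⟨r, hr0, ?_⟩
  rw [h.vol_copy 0 hr0.le, ENNReal.ofReal_one, one_mul, Measure.dirac_apply'
    _ (h.copy_open 0 hr0).measurableSet, Set.indicator_of_mem, Pi.one_apply]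
  · have h2 : r ^ n * (volume K).toReal < 1 := by
      have h3 : r ^ n ≤ r := by
        calc r ^ n ≤ r ^ 1 := pow_le_pow_of_le_one hr0.le (min_le_left _ _) hn
          _ = r := pow_one r
      have h4 : r ≤ 1 / (2 * (volume K).toReal) := min_le_right _ _
      calc r ^ n * (volume K).toReal ≤ 1 / (2 * (volume K).toReal) * (volume K).toReal := by
            gcongr
            exact h3.trans h4
        _ = 1 / 2 := by field_simp
        _ < 1 := by norm_num
    calc ENNReal.ofReal (r ^ n) * volume K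
        = ENNReal.ofReal (r ^ n) * ENNReal.ofReal (volume K).toReal := by
          rw [ENNReal.ofReal_toReal h.vol_lt_top.ne]
      _ = ENNReal.ofReal (r ^ n * (volume K).toReal) := by
          rw [ENNReal.ofReal_mul (by positivity)]
      _ < 1 := by
          rw [← ENNReal.ofReal_one]
          exact (ENNReal.ofReal_lt_ofReal_iff one_pos).2 h2
  · rw [h.mem_copy hr0, sub_self, gauge_zero]
    exact hr0

lemma covConst_le_weak {n : ℕ} (hn : 1 ≤ n) {K : Set (Rn n)} (h : IsSymBody K) :
    covConst K ≤ 1 / (weakConst K).toReal := by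
  have hW : 0 < (weakConst K).toReal :=
    ENNReal.toReal_pos (weakConst_pos hn h).ne' (weakConst_ne_top hn h)
  refine csSup_le ⟨0, le_rfl, zero_admissible K⟩ ?_
  rintro c ⟨hc0, hc⟩
  rcases hc0.eq_or_lt with rfl | hc0
  · positivity
  have h1 := weakConst_le h hc0 hc
  have h2 := ENNReal.toReal_mono
    (ENNReal.inv_ne_top.2 (ENNReal.ofReal_pos.2 hc0).ne') h1
  rw [ENNReal.toReal_inv, ENNReal.toReal_ofReal hc0.le] at h2
  rw [le_div_iff₀ hW]
  calc c * (weakConst K).toReal ≤ c * c⁻¹ := by gcongr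
    _ = 1 := mul_inv_cancel₀ hc0.ne'

/-- The gauge of a symmetric convex body of the line. -/
lemma gauge_one {K : Set (Rn 1)} (h : IsSymBody K) :
    0 < gauge K (fun _ => 1) ∧ ∀ v : Rn 1, gauge K v = |v 0| * gauge K (fun _ => 1) := by
  have hform : ∀ v : Rn 1, gauge K v = |v 0| * gauge K (fun _ => 1) := by
    intro v
    rcases le_total 0 (v 0) with h0 | h0
    · rw [abs_of_nonneg h0, ← h.gauge_smul' h0]
      congr 1
      funext i
      rw [Fin.fin_one_eq_zero i]
      simp
    · rw [abs_of_nonpos h0, ← h.gauge_smul' (by linarith : 0 ≤ -(v 0)), ← h.gauge_neg' v]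
      congr 1
      funext i
      rw [Fin.fin_one_eq_zero i]
      simp
  refine ⟨?_, hform⟩
  by_contra hc
  have hz : gauge K (fun _ => 1) = 0 := le_antisymm (not_lt.1 hc) (gauge_nonneg _)
  have huniv : K = Set.univ := by
    ext x
    simp only [Set.mem_univ, iff_true]
    rw [← h.gauge_lt_one, hform x, hz]
    norm_num
  have := h.vol_lt_top
  rw [huniv] at this
  simp at this

lemma admissible_one {K : Set (Rn 1)} (h : IsSymBody K) {κ : ℝ} (hκ0 : 0 ≤ κ)
    (hκ : κ * (weakConst K).toReal < 1) : Admissible K κ := by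
  classical
  intro E d hE hd
  obtain ⟨hg, hform⟩ := gauge_one h
  set g : ℝ := gauge K (fun _ => 1) with hgdef
  set Wr : ℝ := (weakConst K).toReal with hWr
  have hWr0 : 0 ≤ Wr := ENNReal.toReal_nonneg
  have hWtop : weakConst K ≠ ⊤ := weakConst_ne_top le_rfl h
  have hκW0 : 0 ≤ κ * Wr := mul_nonneg hκ0 hWr0
  -- epsilon
  set ε : ℝ := (1 - κ * Wr) / 4 with hε
  have hε0 : 0 < ε := by rw [hε]; linarith
  have hε1 : ε ≤ 1 := by rw [hε]; linarith
  have hεκ : κ * Wr * (1 + ε) ^ 2 ≤ 1 := by
    have h1 : (1 + ε) ^ 2 ≤ 1 + 3 * ε := by nlinarith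
    calc κ * Wr * (1 + ε) ^ 2 ≤ κ * Wr * (1 + 3 * ε) := by gcongr
      _ ≤ 1 := by rw [hε]; nlinarith
  -- finite subcover
  have hmemcopy : ∀ (x y : Rn 1) (r : ℝ), 0 < r → (y ∈ copy K x r ↔
      y 0 ∈ Ioo (x 0 - r / g) (x 0 + r / g)) := by
    intro x y r hr
    rw [h.mem_copy hr, hform, Pi.sub_apply, ← lt_div_iff₀ hg, abs_lt, Set.mem_Ioo]
    constructor
    · rintro ⟨h1, h2⟩
      constructor <;> linarith
    · rintro ⟨h1, h2⟩
      constructor <;> linarith
  obtain ⟨F, hFE, hcov⟩ := hE.elim_nhds_subcover (fun y => copy K y (ε * d y)) (by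
    intro y hy
    have : 0 < ε * d y := mul_pos hε0 (hd y hy)
    refine (h.copy_open y this).mem_nhds ?_
    rw [h.mem_copy this, sub_self, gauge_zero]
    exact this)
  set w : Rn 1 → ℝ := fun y => (volume (copy K y (d y))).toReal with hw
  have hvolw : ∀ y ∈ F, ENNReal.ofReal (w y) = volume (copy K y (d y)) := by
    intro y hy
    rw [hw]
    refine ENNReal.ofReal_toReal ?_
    rw [h.vol_copy y (hd y (hFE y hy)).le]
    exact ENNReal.mul_ne_top ENNReal.ofReal_ne_top h.vol_lt_top.ne
  obtain ⟨S, hSF, -, hSdis, ν, hν, hνcov, hνtot⟩ := Pool.Agent.W786.MinMax.minmax F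
    (fun y => y 0 - d y / g) (fun y => y 0 + d y / g) (by
      intro y hy
      have : 0 < d y / g := div_pos (hd y (hFE y hy)) hg
      show y 0 - d y / g < y 0 + d y / g
      linarith) _ w (fun y _ => ENNReal.toReal_nonneg) rfl
  set emb : ℝ → Rn 1 := fun t => (fun _ => t) with hemb
  have hembm : Measurable emb := measurable_pi_lambda _ fun _ => measurable_id
  set μ : Measure (Rn 1) := ν.map emb with hμ
  have hμfin : IsFiniteMeasure μ := by rw [hμ]; infer_instance
  have hμuniv : μ univ = ν univ := by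
    rw [hμ, Measure.map_apply hembm MeasurableSet.univ, Set.preimage_univ]
  have hμcopy : ∀ y ∈ F, volume (copy K y (d y)) ≤ μ (copy K y (d y)) := by
    intro y hy
    have hdy := hd y (hFE y hy)
    rw [hμ, Measure.map_apply hembm (h.copy_open y hdy).measurableSet]
    have : emb ⁻¹' (copy K y (d y)) = Ioo (y 0 - d y / g) (y 0 + d y / g) := by
      ext t
      rw [Set.mem_preimage, hmemcopy y _ _ hdy]
    rw [this, ← hvolw y hy]
    exact hνcov y hy
  set lam : ℝ := 1 / (1 + ε) ^ 2 with hlam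
  have hlam0 : 0 < lam := by rw [hlam]; positivity
  have hsub : E ⊆ maxSet K μ lam := by
    intro x hx
    have hx' := hcov hx
    simp only [Set.mem_iUnion] at hx'
    obtain ⟨y, hyF, hxy⟩ := hx'
    have hdy := hd y (hFE y hyF)
    rw [h.mem_copy (mul_pos hε0 hdy)] at hxy
    refine ⟨(1 + ε) * d y, by positivity, ?_⟩
    have h1 : copy K y (d y) ⊆ copy K x ((1 + ε) * d y) := by
      apply copy_mono h hdy (by positivity)
      rw [h.gauge_comm]
      linarith
    refine lt_of_lt_of_le ?_ ((hμcopy y hyF).trans (measure_mono h1))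
    rw [h.vol_copy x (by positivity), h.vol_copy y hdy.le, ← mul_assoc,
      ← ENNReal.ofReal_mul hlam0.le, pow_one, pow_one]
    refine (ENNReal.mul_lt_mul_iff_left h.vol_pos.ne' h.vol_lt_top.ne).2 ?_
    rw [ENNReal.ofReal_lt_ofReal_iff hdy, hlam]
    have : 1 / (1 + ε) ^ 2 * ((1 + ε) * d y) = d y / (1 + ε) := by
      field_simp
    rw [this, div_lt_iff₀ (by positivity)]
    nlinarith
  have hmain : ENNReal.ofReal lam * volume E ≤ weakConst K * ENNReal.ofReal (∑ i ∈ S, w i) := by
    calc ENNReal.ofReal lam * volume E ≤ ENNReal.ofReal lam * volume (maxSet K μ lam) := by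
          gcongr
      _ ≤ weakConst K * μ univ := weak_ineq K μ lam hμfin hlam0
      _ = weakConst K * ENNReal.ofReal (∑ i ∈ S, w i) := by rw [hμuniv, hνtot]
  refine ⟨(S : Set (Rn 1)), ?_, S.countable_toSet, ?_, ?_⟩
  · intro y hy
    exact hFE y (hSF hy)
  · intro y hy z hz hyz
    have hy' : y ∈ S := hy
    have hz' : z ∈ S := hz
    show Disjoint (copy K y (d y)) (copy K z (d z))
    rw [Set.disjoint_left]
    intro u hu hu'
    rw [hmemcopy y u _ (hd y (hFE y (hSF hy')))] at hu
    rw [hmemcopy z u _ (hd z (hFE z (hSF hz')))] at hu'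
    exact Set.disjoint_left.1 (hSdis y hy' z hz' hyz) hu hu'
  · have htsum : ∑' x : (S : Set (Rn 1)), volume (copy K (x : Rn 1) (d x)) =
        ENNReal.ofReal (∑ i ∈ S, w i) := by
      rw [ENNReal.ofReal_sum_of_nonneg fun i _ => ENNReal.toReal_nonneg]
      rw [Finset.tsum_subtype' S (fun x => volume (copy K x (d x)))]
      exact Finset.sum_congr rfl fun i hi => (hvolw i (hSF hi)).symm
    rw [htsum]
    have hκlam : ENNReal.ofReal κ = ENNReal.ofReal (κ / lam) * ENNReal.ofReal lam := by
      rw [← ENNReal.ofReal_mul (by positivity), div_mul_cancel₀ _ hlam0.ne']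
    have hfac : ENNReal.ofReal (κ / lam) * weakConst K ≤ 1 := by
      rw [← ENNReal.ofReal_toReal hWtop, ← ENNReal.ofReal_mul (by positivity),
        ← ENNReal.ofReal_one]
      apply ENNReal.ofReal_le_ofReal
      rw [hlam, ← hWr]
      calc κ / (1 / (1 + ε) ^ 2) * Wr = κ * Wr * (1 + ε) ^ 2 := by field_simp
        _ ≤ 1 := hεκ
    calc ENNReal.ofReal κ * volume E
        = ENNReal.ofReal (κ / lam) * (ENNReal.ofReal lam * volume E) := by
          rw [hκlam, mul_assoc]
      _ ≤ ENNReal.ofReal (κ / lam) * (weakConst K * ENNReal.ofReal (∑ i ∈ S, w i)) := by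
          gcongr
      _ = (ENNReal.ofReal (κ / lam) * weakConst K) * ENNReal.ofReal (∑ i ∈ S, w i) := by
          rw [mul_assoc]
      _ ≤ 1 * ENNReal.ofReal (∑ i ∈ S, w i) := by gcongr
      _ = ENNReal.ofReal (∑ i ∈ S, w i) := one_mul _

/-- For every open bounded symmetric convex `K` in `R^n`, `n ≥ 1`, the covering constant `c(K)`
and the best constant `W(K)` in the weak type (1,1) inequality for the centred maximal operator
of `K` on finite measures satisfy `0 < c(K) ≤ 1 / W(K) < ∞`; in dimension one there is equality,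
`c(K) = 1 / W(K)`. -/
theorem result :
    (∀ n : ℕ, 1 ≤ n → ∀ K : Set (Rn n), IsSymBody K →
      0 < covConst K ∧ weakConst K ≠ ⊤ ∧ covConst K ≤ 1 / (weakConst K).toReal) ∧
    (∀ K : Set (Rn 1), IsSymBody K → covConst K = 1 / (weakConst K).toReal) := by
  refine ⟨fun n hn K h => ⟨(covConst_pos hn h).1, weakConst_ne_top hn h,
    covConst_le_weak hn h⟩, fun K h => le_antisymm (covConst_le_weak le_rfl h) ?_⟩
  have hW : 0 < (weakConst K).toReal :=
    ENNReal.toReal_pos (weakConst_pos le_rfl h).ne' (weakConst_ne_top le_rfl h)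
  refine le_of_forall_lt fun κ hκ => ?_
  rcases lt_or_ge κ 0 with hneg | hnn
  · exact hneg.trans (covConst_pos le_rfl h).1
  · obtain ⟨κ', h1, h2⟩ := exists_between hκ
    refine h1.trans_le (le_csSup (covConst_bddAbove h) ⟨hnn.trans h1.le, ?_⟩)
    apply admissible_one h (hnn.trans h1.le)
    rwa [lt_div_iff₀ hW] at h2

end Pool.Agent.Results.MP_9210c2_an.WeakTypeDuality
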